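import Pool.Agent.K4H49.FR.Stm

set_option autoImplicit false

/-!
# MP_9e123e_ag: `R/𝓘` and `R/J` are F-regular domains for all `n ≥ 3` and all fields of char `p > 0`

The definitions are in `Pool/Agent/K4H49/FR/Tc.lean` (`frobPow`, `tightClosure`, `WeaklyFRegular`,
`FRegular`) and `Pool/Agent/K4H49/FR/Stm.lean` (`PR`, `XM`, `YM`, `CM`, `diagIdeal`, `antiIdeal`).

Proof. Every generator `c_f` is linear in the `y` variables. Choose a pivot variable `y_{i, pc f}` for every
position `f = (i, j)`, let `B` be the polynomial ring in the other variables and `d` the determinant of the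
coefficients of the pivot variables in the generators. Modulo the ideal every element times a power of `d`
lies in `B`. For suitable weights of the variables the top forms of the `c_f` are pairwise coprime monomials
`x y` and the top form of `d` is a product of other variables, so for every `m` and all large `q = p^e` there is
a `p^(-e)`-linear map `ψ` of the polynomial ring with `ψ((∏ c_f)^(q-1) d^m) = 1`. It follows that `d` is a
nonzerodivisor modulo the ideal, that the ideal is prime and, with a `p^(-e)`-linear map of `B` which sends a
given `b ≠ 0` to `1`, that for every nonzero `c` of the quotient there are `p^(-E)`-linear endomorphisms, `E`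
arbitrarily large, with value `1` at `c`; this gives F-regularity. The weights are tables for `n = 3, 4, 5`
(the generator `c_{11}` is redundant in `𝓘`, because of the trace) and come from an induction `n → n + 2`
(one more pair of indices `i`, `n + 1 - i`) for all `n ≥ 6`. Paper proof: helper24, helper49.
-/

open Pool.Agent.K4H49.FR

universe u

/-- For all `n ≥ 3` and all fields `K` of characteristic `p > 0` the rings `R/𝓘`, `𝓘 = I + J`, and `R/J`
are F-regular integral domains. -/
theorem Pool.Agent.Results.MP_9e123e_ag.FRegularAllSizes.result (n : ℕ) (hn : 3 ≤ n)
    (K : Type u) [Field K] (p : ℕ) (hp : p.Prime) [CharP K p] :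
    (FRegular (PR K n ⧸ (diagIdeal K n ⊔ antiIdeal K n)) p ∧
      IsDomain (PR K n ⧸ (diagIdeal K n ⊔ antiIdeal K n))) ∧
    (FRegular (PR K n ⧸ antiIdeal K n) p ∧ IsDomain (PR K n ⧸ antiIdeal K n)) :=
  final n hn K p hp
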